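import Pool.Agent.Run7.h284.HJ.Approx
import Pool.Agent.Results.MP_90b327_co.VectorThreshold
import Pool.Agent.Results.MP_90b327_co.FourCycleThreshold

set_option autoImplicit false

/-!
# The restricted density polynomial Hales-Jewett conjecture and the approximate degree

A family `F` of subsets of `[N]^h` whose indicator function is approximated with error `1/3` by a real
function `p` of degree `D` is good if its density is greater than `exp (4 - N / (400 D))`. If the
conjecture holds for the densities above `θ`, then all families which are not good have relative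
density at most `θ + o(1)` in all families of density `exp (-o(N / D))` which are approximated in this
way, for instance in all families decided with error `1/3` by quantum algorithms that ask `D / 2`
questions of the form `x ∈ A ?`.

Proof: `B_j (p)`, `B_j (t)` the probability of more than `j` successes in `2 j` trials, is a function
of degree `2 j D` which differs from the indicator function by at most `(24/25)^j`. Its total
influence is at most `2 j D` times its mean square, and each edge of the cube which leaves `F`
contributes at least `1/4`.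
-/

namespace Pool.Agent.Results.MP_90b327_co.ApproximateDegree

open Finset

/-- `cube h γ` is `γ^h`, the set of all `h`-tuples with entries in `γ`. -/
def cube {N : ℕ} (h : ℕ) (γ : Finset (Fin N)) : Finset (Fin h → Fin N) :=
  Fintype.piFinset (fun _ : Fin h => γ)

/-- A family `S` of subsets of `[N]^h` is good if there are `A ∈ S` and a nonempty `γ ⊆ [N]` with
`A ∩ γ^h = ∅` and `A ∪ γ^h ∈ S`. -/
def Good {N h : ℕ} (S : Finset (Finset (Fin h → Fin N))) : Prop :=
  ∃ A ∈ S, ∃ γ : Finset (Fin N), γ.Nonempty ∧ Disjoint A (cube h γ) ∧ A ∪ cube h γ ∈ S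

/-- The diagonal: the set of the `N` points `(i, ..., i)`. -/
def diagonal (h N : ℕ) : Finset (Fin h → Fin N) := univ.image fun i => fun _ => i

/-- The difference of `f` in direction `e`: `A ↦ f (A ∪ {e}) - f (A \ {e})`. -/
def diff {E : Type} [DecidableEq E] (e : E) (f : Finset E → ℝ) (A : Finset E) : ℝ :=
  f (insert e A) - f (A.erase e)

/-- The degree of `f` in the points of `U` is at most `D`: all differences of order `D + 1` in
directions from `U` vanish. For `U = univ` it means that `f A = ∑ c T` for some numbers `c T`, the sum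
over all subsets `T ⊆ A` with at most `D` elements. -/
def Degree {E : Type} [DecidableEq E] (U : Finset E) : ℕ → (Finset E → ℝ) → Prop
  | 0, f => ∀ e ∈ U, ∀ A, diff e f A = 0
  | D + 1, f => ∀ e ∈ U, Degree U D (diff e f)

/-- `p` approximates the indicator function of `F` with error at most `1/3`. -/
def Approximates {E : Type} (p : Finset E → ℝ) (F : Finset (Finset E)) : Prop :=
  (∀ A ∈ F, |p A - 1| ≤ 1 / 3) ∧ ∀ A, A ∉ F → |p A| ≤ 1 / 3

/-- The conjecture holds in dimension `h` for all densities above `θ`; `Q1` is the statement that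
`Above h 0` holds for all `h ≥ 1`. -/
def Above (h : ℕ) (θ : ℝ) : Prop :=
  ∀ δ : ℝ, θ < δ → ∃ N : ℕ, 1 ≤ N ∧ ∀ S : Finset (Finset (Fin h → Fin N)),
    δ * (2 : ℝ) ^ (N ^ h) < S.card → Good S

/-- The density above which the conjecture is known (results of this page): `0` for `h = 1`,
`0.3223` for `h = 2`, `2^(h-2)/(2^(h-1)+1)` for `h ≥ 3`. -/
noncomputable def thr (h : ℕ) : ℝ :=
  if h = 1 then 0 else if h = 2 then 3223 / 10000 else (2 : ℝ) ^ (h - 2) / (2 ^ (h - 1) + 1)

/-- The relative form with density `θ'`: families `S` that are not good have relative density at most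
`θ'`, up to an error `exp (4 - c N / D)`, in all families approximated by functions of degree `D`. -/
def Relative (h : ℕ) (θ' : ℝ) : Prop :=
  ∃ c : ℝ, 0 < c ∧ ∀ N D : ℕ, 1 ≤ N → 1 ≤ D → ∀ (p : Finset (Fin h → Fin N) → ℝ)
    (F S : Finset (Finset (Fin h → Fin N))), Degree univ D p → Approximates p F → ¬ Good S →
      ((S ∩ F).card : ℝ) ≤ θ' * F.card + Real.exp (4 - c * N / D) * 2 ^ (N ^ h)

lemma deg_iff {E : Type} [DecidableEq E] (U : Finset E) (D : ℕ) : ∀ f : Finset E → ℝ,
    Degree U D f ↔ H284.HJ.Deg U D f := by
  induction D with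
  | zero => exact fun f => Iff.rfl
  | succ D ih => exact fun f => forall_congr' fun e => forall_congr' fun _ => ih _

lemma relative_of (h : ℕ) (hh : 1 ≤ h) (θ θ' : ℝ) (hθ0 : 0 ≤ θ) (hθ : θ < θ')
    (H : Above h θ) : Relative h θ' := by
  obtain ⟨c, hc, hm⟩ := H284.HJ.approx_main h hh θ θ' hθ0 hθ H
  exact ⟨c, hc, fun N D hN hD p F S hp hF hS =>
    hm N D hN hD p F S ((deg_iff univ D p).1 hp) hF hS⟩

lemma thr_nonneg (h : ℕ) : 0 ≤ thr h := by
  unfold thr
  split_ifs
  · exact le_rfl
  · norm_num
  · positivity

lemma above_thr (h : ℕ) (hh : 1 ≤ h) : Above h (thr h) := by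
  intro δ hδ
  have key : ∃ N₀ : ℕ, ∀ N : ℕ, N₀ ≤ N → ∀ S : Finset (Finset (Fin h → Fin N)),
      δ * (2 : ℝ) ^ (N ^ h) < S.card → Good S := by
    unfold thr at hδ
    by_cases h1 : h = 1
    · rw [if_pos h1] at hδ
      subst h1
      refine Pool.Agent.Results.MP_90b327_co.VectorThreshold.result 1 le_rfl δ ?_
      unfold Pool.Agent.Results.MP_90b327_co.VectorThreshold.threshold
      norm_num
      exact hδ
    · rw [if_neg h1] at hδ
      by_cases h2 : h = 2
      · rw [if_pos h2] at hδ
        subst h2
        refine Pool.Agent.Results.MP_90b327_co.VectorThreshold.result 2 (by norm_num) δ ?_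
        unfold Pool.Agent.Results.MP_90b327_co.VectorThreshold.threshold
        rw [if_pos rfl]
        exact hδ
      · rw [if_neg h2] at hδ
        exact Pool.Agent.Results.MP_90b327_co.FourCycleThreshold.result h (by omega) δ hδ
  obtain ⟨N₀, hN₀⟩ := key
  exact ⟨N₀ + 1, by omega, hN₀ (N₀ + 1) (by omega)⟩

/-- **Theorem.** Let `h ≥ 1`.
(1) Let `F` be a family of subsets of `[N]^h` which is approximated with error `1/3` by a real
function whose degree in the `N` diagonal points is at most `D` (the other points may be used in any
way). If `|F| > exp (4 - N / (400 D)) 2^(N^h)`, then `F` is good.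
(2) If the conjecture holds in dimension `h` for all densities above `θ`, then its relative form
holds for all densities above `θ`. So `Q1` implies its relative form for all positive densities.
(3) The relative form holds for all densities above `thr h`: above `0` for `h = 1`, above `0.3223`
for `h = 2`, above `2/5` for `h = 3`. -/
theorem result (h : ℕ) (hh : 1 ≤ h) :
    (∀ N D : ℕ, 1 ≤ N → 1 ≤ D → ∀ (p : Finset (Fin h → Fin N) → ℝ)
      (F : Finset (Finset (Fin h → Fin N))), Degree (diagonal h N) D p → Approximates p F →
        Real.exp (4 - N / (400 * D)) * 2 ^ (N ^ h) < F.card → Good F) ∧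
    (∀ θ θ' : ℝ, 0 ≤ θ → θ < θ' → Above h θ → Relative h θ') ∧
    (∀ θ' : ℝ, thr h < θ' → Relative h θ') := by
  refine ⟨?_, fun θ θ' h0 h1 H => relative_of h hh θ θ' h0 h1 H,
    fun θ' hθ' => relative_of h hh (thr h) θ' (thr_nonneg h) hθ' (above_thr h hh)⟩
  intro N D hN hD p F hp hF hc
  by_contra hbad
  have h1 := H284.HJ.approx_small hh hN hD ((deg_iff _ D p).1 hp) hF hbad
  linarith

end Pool.Agent.Results.MP_90b327_co.ApproximateDegree
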