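import Pool.Agent.Run7.h284.HJ.FormMain
import Pool.Agent.Results.MP_90b327_co.VectorThreshold
import Pool.Agent.Results.MP_90b327_co.FourCycleThreshold

set_option autoImplicit false

/-!
# The restricted density polynomial Hales-Jewett conjecture for families decided by formulas

A family of subsets of `[N]^h` decided by a formula which reads each of the `N` diagonal points at
most `R` times (and the other points arbitrarily often) is good if its density is greater than
`R / (N + R)`. If the conjecture holds for the densities above `θ`, then every family which is not good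
has relative density at most `θ + o(1)` in every family of density much greater than `R / N` decided by
a formula which reads every point at most `R` times.

Proof: Khrapchenko's bound for the number of edges of the cube between the two sets which a formula
separates, applied in the fibres where only the bits of the diagonal, or of the blocks `B_j ^ h`, vary.
-/

namespace Pool.Agent.Results.MP_90b327_co.FormulaFamilies

open Finset H284.KH H284.HJ

/-- `cube h γ` is `γ^h`, the set of all `h`-tuples with entries in `γ`. -/
def cube {N : ℕ} (h : ℕ) (γ : Finset (Fin N)) : Finset (Fin h → Fin N) :=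
  Fintype.piFinset (fun _ : Fin h => γ)

/-- A family `S` of subsets of `[N]^h` is good if there are `A ∈ S` and a nonempty `γ ⊆ [N]` with
`A ∩ γ^h = ∅` and `A ∪ γ^h ∈ S`. -/
def Good {N h : ℕ} (S : Finset (Finset (Fin h → Fin N))) : Prop :=
  ∃ A ∈ S, ∃ γ : Finset (Fin N), γ.Nonempty ∧ Disjoint A (cube h γ) ∧ A ∪ cube h γ ∈ S

/-- The diagonal: the set of the `N` points `(i, ..., i)`. -/
def diagonal (h N : ℕ) : Finset (Fin h → Fin N) := univ.image fun i => fun _ => i

/-- The formula `f` (with AND, OR and NOT gates; its leaves are arbitrary functions of sets of input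
bits) decides the family `F`: its value at the bits `x ∈ A` is true if and only if `A ∈ F`. -/
def Decides {h N : ℕ} (f : Fml (Fin h → Fin N)) (F : Finset (Finset (Fin h → Fin N))) : Prop :=
  ∀ A, A ∈ F ↔ f.eval (fun x => decide (x ∈ A)) = true

/-- The conjecture holds in dimension `h` for all densities above `θ`; `Q1` is the statement that
`Above h 0` holds for all `h ≥ 1`. -/
def Above (h : ℕ) (θ : ℝ) : Prop :=
  ∀ δ : ℝ, θ < δ → ∃ N : ℕ, 1 ≤ N ∧ ∀ S : Finset (Finset (Fin h → Fin N)),
    δ * (2 : ℝ) ^ (N ^ h) < S.card → Good S

/-- The density above which the conjecture is known (results of this page): `0` for `h = 1`,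
`0.3223` for `h = 2`, `2^(h-2)/(2^(h-1)+1)` for `h ≥ 3`. -/
noncomputable def thr (h : ℕ) : ℝ :=
  if h = 1 then 0 else if h = 2 then 3223 / 10000 else (2 : ℝ) ^ (h - 2) / (2 ^ (h - 1) + 1)

/-- The relative form with density `θ'`: families `S` that are not good have relative density at most
`θ'`, up to an error `C t R / N`, in all families decided by formulas the leaves of which read at most
`t` bits and which read every bit in at most `R` leaves. -/
def Relative (h : ℕ) (θ' : ℝ) : Prop :=
  ∃ C : ℝ, 0 < C ∧ ∀ N t R : ℕ, 1 ≤ N → 1 ≤ t → 1 ≤ R → ∀ f : Fml (Fin h → Fin N),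
    Narrow t f → (∀ x, reads x f ≤ R) → ∀ F S : Finset (Finset (Fin h → Fin N)),
      Decides f F → ¬ Good S →
        ((S ∩ F).card : ℝ) ≤ θ' * F.card + C * (t * R / N) * 2 ^ (N ^ h)

lemma relative_of (h : ℕ) (hh : 1 ≤ h) (θ θ' : ℝ) (hθ0 : 0 ≤ θ) (hθ : θ < θ')
    (H : Above h θ) : Relative h θ' :=
  H284.HJ.fml_main h hh θ θ' hθ0 hθ H

lemma thr_nonneg (h : ℕ) : 0 ≤ thr h := by
  unfold thr
  split_ifs
  · exact le_rfl
  · norm_num
  · positivity

lemma above_thr (h : ℕ) (hh : 1 ≤ h) : Above h (thr h) := by
  intro δ hδ
  have key : ∃ N₀ : ℕ, ∀ N : ℕ, N₀ ≤ N → ∀ S : Finset (Finset (Fin h → Fin N)),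
      δ * (2 : ℝ) ^ (N ^ h) < S.card → Good S := by
    unfold thr at hδ
    by_cases h1 : h = 1
    · rw [if_pos h1] at hδ
      subst h1
      refine Pool.Agent.Results.MP_90b327_co.VectorThreshold.result 1 le_rfl δ ?_
      unfold Pool.Agent.Results.MP_90b327_co.VectorThreshold.threshold
      norm_num
      exact hδ
    · rw [if_neg h1] at hδ
      by_cases h2 : h = 2
      · rw [if_pos h2] at hδ
        subst h2
        refine Pool.Agent.Results.MP_90b327_co.VectorThreshold.result 2 (by norm_num) δ ?_
        unfold Pool.Agent.Results.MP_90b327_co.VectorThreshold.threshold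
        rw [if_pos rfl]
        exact hδ
      · rw [if_neg h2] at hδ
        exact Pool.Agent.Results.MP_90b327_co.FourCycleThreshold.result h (by omega) δ hδ
  obtain ⟨N₀, hN₀⟩ := key
  exact ⟨N₀ + 1, by omega, hN₀ (N₀ + 1) (by omega)⟩

/-- **Theorem.** Let `h ≥ 1`.
(1) Let `F` be a family of subsets of `[N]^h`, `N ≥ 1`, decided by a formula and let `q` be the sum,
over all leaves, of the square of the number of diagonal points which the leaf reads. If `F` is not
good, then `|F| ≤ q / (N² + q) 2^(N^h)`. There is no condition on the other points.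
(2) Here `q` is at most `t` times the number of the pairs of a leaf and a diagonal point which it
reads, if the leaves read at most `t` points each; so `q ≤ t R N` if each diagonal point is read by at
most `R` leaves, and all families of density greater than `t R / (N + t R)` are good.
(3) If the conjecture holds in dimension `h` for all densities above `θ`, then its relative form
holds for all densities above `θ`. So `Q1` implies its relative form for all positive densities.
(4) The relative form holds for all densities above `thr h`: above `0` for `h = 1`, above `0.3223`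
for `h = 2`, above `2/5` for `h = 3`. -/
theorem result (h : ℕ) (hh : 1 ≤ h) :
    (∀ (N : ℕ) (f : Fml (Fin h → Fin N)) (F : Finset (Finset (Fin h → Fin N))), 1 ≤ N →
      Decides f F → ¬ Good F →
        (N ^ 2 + f.cost (diagonal h N)) * F.card ≤ f.cost (diagonal h N) * 2 ^ (N ^ h)) ∧
    (∀ (N t : ℕ) (f : Fml (Fin h → Fin N)), Narrow t f →
      f.cost (diagonal h N) ≤ t * ∑ x ∈ diagonal h N, reads x f) ∧
    (∀ θ θ' : ℝ, 0 ≤ θ → θ < θ' → Above h θ → Relative h θ') ∧
    (∀ θ' : ℝ, thr h < θ' → Relative h θ') := by
  refine ⟨?_, fun N t f hf => cost_le _ f hf,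
    fun θ θ' h0 h1 H => relative_of h hh θ θ' h0 h1 H,
    fun θ' hθ' => relative_of h hh (thr h) θ' (thr_nonneg h) hθ' (above_thr h hh)⟩
  intro N f F hN hF hbad
  have h1 := H284.HJ.fml_small hh hN hF hbad
  have h2 : univ.map (H284.HJ.diag (N := N) hh) = diagonal h N := by
    unfold diagonal
    rw [Finset.map_eq_image]
    rfl
  rw [h2] at h1
  exact h1

end Pool.Agent.Results.MP_90b327_co.FormulaFamilies
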