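import Pool.Agent.Run7.h284.HJ.Layer
import Pool.Agent.Results.MP_90b327_co.VectorThreshold
import Pool.Agent.Results.MP_90b327_co.FourCycleThreshold

set_option autoImplicit false

/-!
# The restricted density polynomial Hales-Jewett conjecture and functions with differences of
constant sign: power savings

The starting result `SignsAndPolynomials` proves the conjecture, for positive densities and large `N`,
for the families decided by a fixed number of real functions all of whose differences of order `k`
have constant sign (and by a polynomial with values in a finite group). Here the number `r` of the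
functions is arbitrary, the bound `r N ^ (-2 ^ (-k))` for the densities is explicit, the relative
form is proved with the same saving, and for `k = 1` the bound is sharp up to a constant factor.

Proof: the average sensitivity of the family decided by such a function is at most
`2 n ^ (1 - 2 ^ (-k))` for any `n` points, the other points being fixed, by an induction on `k` as for
polynomial threshold functions.
-/

namespace Pool.Agent.Results.MP_90b327_co.SignsPowerSaving

open Finset

/-- `cube h γ` is `γ^h`, the set of all `h`-tuples with entries in `γ`. -/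
def cube {N : ℕ} (h : ℕ) (γ : Finset (Fin N)) : Finset (Fin h → Fin N) :=
  Fintype.piFinset (fun _ : Fin h => γ)

/-- A family `S` of subsets of `[N]^h` is good if there are `A ∈ S` and a nonempty `γ ⊆ [N]` with
`A ∩ γ^h = ∅` and `A ∪ γ^h ∈ S`. -/
def Good {N h : ℕ} (S : Finset (Finset (Fin h → Fin N))) : Prop :=
  ∃ A ∈ S, ∃ γ : Finset (Fin N), γ.Nonempty ∧ Disjoint A (cube h γ) ∧ A ∪ cube h γ ∈ S

/-- The difference of `f` in direction `e`: `A ↦ f (A ∪ {e}) - f (A \ {e})`. -/
def diff {E : Type} [DecidableEq E] (e : E) (f : Finset E → ℝ) (A : Finset E) : ℝ :=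
  f (insert e A) - f (A.erase e)

/-- All differences of order `k` of `f` have constant sign: for all `e₁, …, e_k` the function
`diff e₁ (… (diff e_k f))` is nowhere negative or nowhere positive (which of the two may depend on
`e₁, …, e_k`). -/
def ConstSign {E : Type} [DecidableEq E] : ℕ → (Finset E → ℝ) → Prop
  | 0, f => (∀ A, 0 ≤ f A) ∨ (∀ A, f A ≤ 0)
  | k + 1, f => ∀ e, ConstSign k (diff e f)

/-- `F = {A : R (0 < f₁ A, …, 0 < f_r A)}`, `R` any condition, where for each `i` all differences of
`fᵢ` of some order `j`, `1 ≤ j ≤ k`, have constant sign (for instance polynomials of degree at most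
`k`; for `j = 1` the functions which are monotone or antitone in each point). -/
def Signs (k r : ℕ) {h N : ℕ} (F : Finset (Finset (Fin h → Fin N))) : Prop :=
  ∃ (f : Fin r → Finset (Fin h → Fin N) → ℝ) (R : (Fin r → Prop) → Prop),
    (∀ i, ∃ j, 1 ≤ j ∧ j ≤ k ∧ ConstSign j (f i)) ∧ ∀ A, A ∈ F ↔ R fun i => 0 < f i A

/-- The conjecture holds in dimension `h` for all densities above `θ`; `Q1` is the statement that
`Above h 0` holds for all `h ≥ 1`. -/
def Above (h : ℕ) (θ : ℝ) : Prop :=
  ∀ δ : ℝ, θ < δ → ∃ N : ℕ, 1 ≤ N ∧ ∀ S : Finset (Finset (Fin h → Fin N)),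
    δ * (2 : ℝ) ^ (N ^ h) < S.card → Good S

/-- The density above which the conjecture is known (results of this page): `0` for `h = 1`,
`0.3223` for `h = 2`, `2^(h-2)/(2^(h-1)+1)` for `h ≥ 3`. -/
noncomputable def thr (h : ℕ) : ℝ :=
  if h = 1 then 0 else if h = 2 then 3223 / 10000 else (2 : ℝ) ^ (h - 2) / (2 ^ (h - 1) + 1)

/-- The relative form with density `θ'` and error `C r N ^ (-2 ^ (-k))`. -/
def Relative (h : ℕ) (θ' : ℝ) : Prop :=
  ∃ C : ℝ, 0 < C ∧ ∀ N k r : ℕ, 1 ≤ N → 1 ≤ k → 1 ≤ r →
    ∀ F S : Finset (Finset (Fin h → Fin N)), Signs k r F → ¬ Good S →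
      ((S ∩ F).card : ℝ) ≤ θ' * F.card + C * (r * (N : ℝ) ^ (-(1 / 2 : ℝ) ^ k)) * 2 ^ (N ^ h)

lemma cs_of {E : Type} [DecidableEq E] (k : ℕ) : ∀ f : Finset E → ℝ, ConstSign k f ↔
    H284.HJ.CS k f := by
  induction k with
  | zero => exact fun f => Iff.rfl
  | succ k ih => exact fun f => forall_congr' fun e => ih _

lemma relative_of (h : ℕ) (hh : 1 ≤ h) (θ θ' : ℝ) (hθ0 : 0 ≤ θ) (hθ : θ < θ')
    (H : Above h θ) : Relative h θ' := by
  obtain ⟨m, hm, hcrit⟩ := H θ' hθ
  have hm0 : (0 : ℝ) < m := by exact_mod_cast hm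
  refine ⟨m + 2 * m * m ^ h, by positivity, ?_⟩
  intro N k r hN hk hr F S hF hS
  obtain ⟨f, R, hf, hR⟩ := hF
  exact H284.HJ.signs_main h hh θ' (by linarith) hm hcrit N k r hN hk hr f R F S
    (fun i => by
      obtain ⟨j, h1, h2, h3⟩ := hf i
      exact ⟨j, h1, h2, (cs_of j _).1 h3⟩) hR hS

lemma thr_nonneg (h : ℕ) : 0 ≤ thr h := by
  unfold thr
  split_ifs
  · exact le_rfl
  · norm_num
  · positivity

lemma above_thr (h : ℕ) (hh : 1 ≤ h) : Above h (thr h) := by
  intro δ hδ
  have key : ∃ N₀ : ℕ, ∀ N : ℕ, N₀ ≤ N → ∀ S : Finset (Finset (Fin h → Fin N)),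
      δ * (2 : ℝ) ^ (N ^ h) < S.card → Good S := by
    unfold thr at hδ
    by_cases h1 : h = 1
    · rw [if_pos h1] at hδ
      subst h1
      refine Pool.Agent.Results.MP_90b327_co.VectorThreshold.result 1 le_rfl δ ?_
      unfold Pool.Agent.Results.MP_90b327_co.VectorThreshold.threshold
      norm_num
      exact hδ
    · rw [if_neg h1] at hδ
      by_cases h2 : h = 2
      · rw [if_pos h2] at hδ
        subst h2
        refine Pool.Agent.Results.MP_90b327_co.VectorThreshold.result 2 (by norm_num) δ ?_
        unfold Pool.Agent.Results.MP_90b327_co.VectorThreshold.threshold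
        rw [if_pos rfl]
        exact hδ
      · rw [if_neg h2] at hδ
        exact Pool.Agent.Results.MP_90b327_co.FourCycleThreshold.result h (by omega) δ hδ
  obtain ⟨N₀, hN₀⟩ := key
  exact ⟨N₀ + 1, by omega, hN₀ (N₀ + 1) (by omega)⟩

/-- **Theorem.** Let `h ≥ 1`.
(1) For all `N`, `k`, `r` every family of more than `r N ^ (-2 ^ (-k)) 2 ^ (N ^ h)` subsets of `[N]^h`
which is decided by `r` real functions with differences of constant sign of orders at most `k` is
good.
(2) If the conjecture holds in dimension `h` for all densities above `θ`, then its relative form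
holds for all densities above `θ`. So `Q1` implies its relative form for all positive densities.
(3) The relative form holds for all densities above `thr h`: above `0` for `h = 1`, above `0.3223`
for `h = 2`, above `2/5` for `h = 3`.
(4) For `k = 1` the bound in (1) is sharp up to a constant factor: for even `N = 2 n` there is a family
of at least `(2 N) ^ (-1/2) 2 ^ (N ^ h)` sets which is decided by two functions that are monotone in
each point and which is not good. -/
theorem result (h : ℕ) (hh : 1 ≤ h) :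
    (∀ N k r : ℕ, 1 ≤ N → 1 ≤ k → ∀ F : Finset (Finset (Fin h → Fin N)), Signs k r F →
      (r : ℝ) * (N : ℝ) ^ (-(1 / 2 : ℝ) ^ k) * 2 ^ (N ^ h) < F.card → Good F) ∧
    (∀ θ θ' : ℝ, 0 ≤ θ → θ < θ' → Above h θ → Relative h θ') ∧
    (∀ θ' : ℝ, thr h < θ' → Relative h θ') ∧
    (∀ n : ℕ, 1 ≤ n → ∃ F : Finset (Finset (Fin h → Fin (2 * n))), Signs 1 2 F ∧ ¬ Good F ∧
      2 ^ ((2 * n) ^ h) ≤ Real.sqrt (2 * (2 * n : ℕ)) * F.card) := by
  refine ⟨?_, fun θ θ' h0 h1 H => relative_of h hh θ θ' h0 h1 H,
    fun θ' hθ' => relative_of h hh (thr h) θ' (thr_nonneg h) hθ' (above_thr h hh), ?_⟩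
  · intro N k r hN hk F hF hc
    obtain ⟨f, R, hf, hR⟩ := hF
    by_contra hbad
    have h1 := H284.HJ.signs_small hh hN hk f R (fun i => by
      obtain ⟨j, h1, h2, h3⟩ := hf i
      exact ⟨j, h1, h2, (cs_of j _).1 h3⟩) hR hbad
    linarith
  · intro n hn
    obtain ⟨f, R, F, h1, h2, h3, h4⟩ := H284.HJ.sharp hh n hn
    exact ⟨F, ⟨f, R, fun i => ⟨1, le_rfl, le_rfl, (cs_of 1 _).2 (h1 i)⟩, h2⟩, h3, h4⟩

end Pool.Agent.Results.MP_90b327_co.SignsPowerSaving
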