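import Pool.Agent.Run7.h284.HJ.Main
import Pool.Agent.Results.MP_90b327_co.VectorThreshold
import Pool.Agent.Results.MP_90b327_co.FourCycleThreshold

set_option autoImplicit false

/-!
# The restricted density polynomial Hales-Jewett conjecture and threshold gates on top of circuits
of constant depth

Families of subsets of `[N]^h` decided by `N ^ δ` threshold gates with arbitrary real weights, whose
inputs are gates of a circuit of constant depth with polynomially many gates, are good if they have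
more than `N ^ (-δ) 2 ^ (N ^ h)` members. Every family which is not good has relative density at
most `θ + o(1)` in every family decided in this way, if the conjecture holds for the densities above
`θ`.

Proof: a threshold gate on top of a circuit of constant depth has average sensitivity at most
`n ^ (1 - δ)` with respect to any `n` input bits, the other bits being fixed. For a fixed number `m`
take the bits in the `N / m` blocks `B_j ^ h`, `|B_j| = m`. For almost all `j` and `A` the family
contains all sets or no set that agree with `A` outside `B_j ^ h`.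
-/

namespace Pool.Agent.Results.MP_90b327_co.ThresholdOfConstantDepth

open Finset DomAC0

/-- `cube h γ` is `γ^h`, the set of all `h`-tuples with entries in `γ`. -/
def cube {N : ℕ} (h : ℕ) (γ : Finset (Fin N)) : Finset (Fin h → Fin N) :=
  Fintype.piFinset (fun _ : Fin h => γ)

/-- A family `S` of subsets of `[N]^h` is good if there are `A ∈ S` and a nonempty `γ ⊆ [N]` with
`A ∩ γ^h = ∅` and `A ∪ γ^h ∈ S`. -/
def Good {N h : ℕ} (S : Finset (Finset (Fin h → Fin N))) : Prop :=
  ∃ A ∈ S, ∃ γ : Finset (Fin N), γ.Nonempty ∧ Disjoint A (cube h γ) ∧ A ∪ cube h γ ∈ S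

/-- `F` is decided by an arbitrary function `R` of `r` threshold gates on top of a circuit `C` with at
most `s` gates, AND and OR gates with any number of inputs and NOT gates, which reads the bits
`x ∈ A` of a subset `A` of `[N]^h`: the `k`-th threshold gate compares `θ k` with the sum of the
weights `w k u`, arbitrary real numbers, of the nodes `u` in `V k` (gates of `C` of depth at most
`d`, or input bits, in any number) whose value is true. -/
def Decided (d s r : ℕ) {h N : ℕ} (F : Finset (Finset (Fin h → Fin N))) : Prop :=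
  ∃ (C : Circuit (Fin h → Fin N)) (V : Fin r → Finset ((Fin h → Fin N) ⊕ Fin C.size))
    (w : Fin r → (Fin h → Fin N) ⊕ Fin C.size → ℝ) (θ : Fin r → ℝ) (R : (Fin r → Prop) → Prop),
    C.size ≤ s ∧ (∀ k, ∀ u ∈ V k, C.nodeDepth u ≤ d) ∧
    ∀ A, A ∈ F ↔ R fun k =>
      θ k < ∑ u ∈ V k, if C.nodeVal (fun x => decide (x ∈ A)) u = true then w k u else 0

/-- The conjecture holds in dimension `h` for all densities above `θ`; `Q1` is the statement that
`Above h 0` holds for all `h ≥ 1`. -/
def Above (h : ℕ) (θ : ℝ) : Prop :=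
  ∀ δ : ℝ, θ < δ → ∃ N : ℕ, 1 ≤ N ∧ ∀ S : Finset (Finset (Fin h → Fin N)),
    δ * (2 : ℝ) ^ (N ^ h) < S.card → Good S

/-- The density above which the conjecture is known (results of this page): `0` for `h = 1`,
`0.3223` for `h = 2`, `2^(h-2)/(2^(h-1)+1)` for `h ≥ 3`. -/
noncomputable def thr (h : ℕ) : ℝ :=
  if h = 1 then 0 else if h = 2 then 3223 / 10000 else (2 : ℝ) ^ (h - 2) / (2 ^ (h - 1) + 1)

/-- The relative form with density `θ'`: families `S` that are not good have relative density at most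
`θ'`, up to an error that is a power of `N`, in all families decided by at most `N ^ δ` threshold
gates on top of circuits of depth `d` with `N ^ a` gates. -/
def Relative (h : ℕ) (θ' : ℝ) : Prop :=
  ∀ d a : ℕ, ∃ δ : ℝ, 0 < δ ∧ ∃ N₀ : ℕ, ∀ N : ℕ, N₀ ≤ N →
    ∀ (r : ℕ) (F S : Finset (Finset (Fin h → Fin N))), (r : ℝ) ≤ (N : ℝ) ^ δ →
      Decided d (N ^ a) r F → ¬ Good S →
        ((S ∩ F).card : ℝ) ≤ θ' * F.card + (N : ℝ) ^ (-δ) * 2 ^ (N ^ h)

lemma dec_of {d s r h N : ℕ} {F : Finset (Finset (Fin h → Fin N))} (hF : Decided d s r F) :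
    H284.HJ.Dec d s r F := by
  obtain ⟨C, V, w, θ, R, h1, h2, h3⟩ := hF
  refine ⟨C, V, w, θ, fun b => R fun k => b k = true, h1, h2, fun A => ?_⟩
  rw [h3]
  have e1 : (fun k => θ k < ∑ u ∈ V k,
      if C.nodeVal (fun x => decide (x ∈ A)) u = true then w k u else 0) =
      fun k => H284.VX.thr C (V k) (w k) (θ k) (H284.HJ.ind A) = true := by
    funext k
    unfold H284.VX.thr
    rw [decide_eq_true_iff]
    rfl
  rw [e1]

lemma relative_of (h : ℕ) (hh : 1 ≤ h) (θ θ' : ℝ) (hθ0 : 0 ≤ θ) (hθ : θ < θ')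
    (H : Above h θ) : Relative h θ' := by
  intro d a
  obtain ⟨m, hm, hcrit⟩ := H θ' hθ
  obtain ⟨δ, hδ, hN⟩ := H284.HJ.main h hh θ' (by linarith) hm hcrit d a
  obtain ⟨N₀, hN₀⟩ := Filter.eventually_atTop.1 hN
  refine ⟨δ, hδ, N₀, fun N h1 r F S hr hF hS => ?_⟩
  exact hN₀ N h1 r F S hr (dec_of hF) hS

lemma thr_nonneg (h : ℕ) : 0 ≤ thr h := by
  unfold thr
  split_ifs
  · exact le_rfl
  · norm_num
  · positivity

lemma thr_lt (h : ℕ) (hh : 1 ≤ h) : thr h < 1 := by
  unfold thr
  split_ifs with h1 h2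
  · norm_num
  · norm_num
  · rw [div_lt_one (by positivity)]
    have e1 : (2 : ℝ) ^ (h - 1) = 2 * 2 ^ (h - 2) := by
      rw [← pow_succ']
      congr 1
      omega
    have e2 : (0 : ℝ) < 2 ^ (h - 2) := by positivity
    rw [e1]
    linarith

lemma above_thr (h : ℕ) (hh : 1 ≤ h) : Above h (thr h) := by
  intro δ hδ
  have key : ∃ N₀ : ℕ, ∀ N : ℕ, N₀ ≤ N → ∀ S : Finset (Finset (Fin h → Fin N)),
      δ * (2 : ℝ) ^ (N ^ h) < S.card → Good S := by
    unfold thr at hδ
    by_cases h1 : h = 1
    · rw [if_pos h1] at hδ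
      subst h1
      refine Pool.Agent.Results.MP_90b327_co.VectorThreshold.result 1 le_rfl δ ?_
      unfold Pool.Agent.Results.MP_90b327_co.VectorThreshold.threshold
      norm_num
      exact hδ
    · rw [if_neg h1] at hδ
      by_cases h2 : h = 2
      · rw [if_pos h2] at hδ
        subst h2
        refine Pool.Agent.Results.MP_90b327_co.VectorThreshold.result 2 (by norm_num) δ ?_
        unfold Pool.Agent.Results.MP_90b327_co.VectorThreshold.threshold
        rw [if_pos rfl]
        exact hδ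
      · rw [if_neg h2] at hδ
        exact Pool.Agent.Results.MP_90b327_co.FourCycleThreshold.result h (by omega) δ hδ
  obtain ⟨N₀, hN₀⟩ := key
  exact ⟨N₀ + 1, by omega, hN₀ (N₀ + 1) (by omega)⟩

/-- **Theorem.** Let `h ≥ 1`.
(1) For all `d`, `a` there is `δ > 0` such that for all large `N` every family of more than
`N ^ (-δ) 2 ^ (N ^ h)` subsets of `[N]^h` decided by at most `N ^ δ` threshold gates with arbitrary
real weights on top of a circuit of depth `d` with `N ^ a` gates is good.
(2) If the conjecture holds in dimension `h` for all densities above `θ`, then its relative form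
holds for all densities above `θ`. So `Q1` implies its relative form for all positive densities.
(3) The relative form holds for all densities above `thr h`: above `0` for `h = 1`, above `0.3223`
for `h = 2`, above `2/5` for `h = 3`. -/
theorem result (h : ℕ) (hh : 1 ≤ h) :
    (∀ d a : ℕ, ∃ δ : ℝ, 0 < δ ∧ ∃ N₀ : ℕ, ∀ N : ℕ, N₀ ≤ N →
      ∀ (r : ℕ) (F : Finset (Finset (Fin h → Fin N))), (r : ℝ) ≤ (N : ℝ) ^ δ →
        Decided d (N ^ a) r F → (N : ℝ) ^ (-δ) * 2 ^ (N ^ h) < F.card → Good F) ∧
    (∀ θ θ' : ℝ, 0 ≤ θ → θ < θ' → Above h θ → Relative h θ') ∧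
    (∀ θ' : ℝ, thr h < θ' → Relative h θ') := by
  have h3 : ∀ θ' : ℝ, thr h < θ' → Relative h θ' := fun θ' hθ' =>
    relative_of h hh (thr h) θ' (thr_nonneg h) hθ' (above_thr h hh)
  refine ⟨?_, fun θ θ' h0 h1 H => relative_of h hh θ θ' h0 h1 H, h3⟩
  intro d a
  obtain ⟨θ', hθ'⟩ : ∃ θ' : ℝ, θ' = (1 + thr h) / 2 := ⟨_, rfl⟩
  have ht := thr_lt h hh
  have h1 : thr h < θ' := by rw [hθ']; linarith
  have h2 : θ' < 1 := by rw [hθ']; linarith
  obtain ⟨δ, hδ, N₀, hN₀⟩ := h3 θ' h1 d a
  have t1 : Filter.Tendsto (fun n : ℕ => (n : ℝ) ^ (δ / 2)) Filter.atTop Filter.atTop :=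
    (tendsto_rpow_atTop (by positivity)).comp tendsto_natCast_atTop_atTop
  obtain ⟨N₁, hN₁⟩ := Filter.eventually_atTop.1 (t1.eventually_ge_atTop (1 / (1 - θ')))
  refine ⟨δ / 2, by positivity, max (max N₀ N₁) 1, fun N hN r F hr hF hc => ?_⟩
  by_contra hbad
  have hN1 : 1 ≤ N := (le_max_right _ _).trans hN
  have hNr : (1 : ℝ) ≤ N := by exact_mod_cast hN1
  have hNp : (0 : ℝ) < N := by linarith
  have e1 := hN₀ N ((le_max_left _ _).trans ((le_max_left _ _).trans hN)) r F F
    (hr.trans (Real.rpow_le_rpow_of_exponent_le hNr (by linarith))) hF hbad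
  rw [inter_self] at e1
  have e2 := hN₁ N ((le_max_right _ _).trans ((le_max_left _ _).trans hN))
  rw [div_le_iff₀ (by linarith)] at e2
  have e3 : (N : ℝ) ^ (-δ) * 2 ^ (N ^ h) ≤ (1 - θ') * ((N : ℝ) ^ (-(δ / 2)) * 2 ^ (N ^ h)) := by
    have f1 : (N : ℝ) ^ (-(δ / 2)) = (N : ℝ) ^ (-δ) * (N : ℝ) ^ (δ / 2) := by
      rw [← Real.rpow_add hNp]
      congr 1
      ring
    have f2 : (0 : ℝ) < (N : ℝ) ^ (-δ) * 2 ^ (N ^ h) := by positivity
    rw [f1]
    calc (N : ℝ) ^ (-δ) * 2 ^ (N ^ h) = 1 * ((N : ℝ) ^ (-δ) * 2 ^ (N ^ h)) := (one_mul _).symm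
      _ ≤ ((N : ℝ) ^ (δ / 2) * (1 - θ')) * ((N : ℝ) ^ (-δ) * 2 ^ (N ^ h)) :=
          mul_le_mul_of_nonneg_right e2 f2.le
      _ = _ := by ring
  have e4 := mul_lt_mul_of_pos_left hc (by linarith : (0 : ℝ) < 1 - θ')
  linarith

end Pool.Agent.Results.MP_90b327_co.ThresholdOfConstantDepth
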